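import Pool.Agent.Helper92.TN.StN

/-! Project T3K, level `p`, module NXT: Hecke relations of the coefficients. -/

set_option autoImplicit false

namespace Pool.Agent.Helper58.TN

open Pool.Agent.Helper14.CV (G0 Homog EqC act StFar)
open Pool.Agent.Helper28.WK
open Pool.Agent.Helper14.WK
open Pool.Agent.Helper28.LV
open Pool.Agent.Helper76.TG
open Pool.Agent.Helper28.TK
open Pool.Agent.Helper76.TX (Sg)
open Pool.Agent.Helper92.TN

private noncomputable def tm (c : ℕ → ℂ) (ep : ℤ) (p a s M : ℕ) : ℂ :=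
  if p ^ s ∣ M then ((ep : ℂ) ^ s * (p : ℂ) ^ ((a + 1) * s)) * c (M / p ^ s) else 0

private theorem sum_tm (c : ℕ → ℂ) (ep : ℤ) (h0 : c 0 = 0) (p a M T : ℕ) (hp : p.Prime) (hT : M + 1 ≤ T) :
    ∑ s ∈ Finset.range T, tm c ep p a s M = ∑ s ∈ Finset.range (M + 1), tm c ep p a s M := by
  symm
  refine Finset.sum_subset (Finset.range_subset_range.2 hT) fun s _ hs => ?_
  have hs' : M < s := by
    by_contra h
    exact hs (Finset.mem_range.2 (by omega))
  unfold tm
  rcases Nat.eq_zero_or_pos M with hM | hM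
  · rw [hM, if_pos (dvd_zero _), Nat.zero_div, h0, mul_zero]
  · have h1 : s < p ^ s := Nat.lt_pow_self hp.one_lt
    rw [if_neg (Nat.not_dvd_of_pos_of_lt hM (by omega))]

private theorem tm_rel (c : ℕ → ℂ) (ep : ℤ) (p a s m l : ℕ) (lam e : ℂ) (hp : p.Prime) (hl : l.Prime)
    (hlp : l ≠ p)
    (h : ∀ m : ℕ, c (l * m) + (if l ∣ m then e * c (m / l) else 0) = lam * c m) :
    tm c ep p a s (l * m) + (if l ∣ m then e * tm c ep p a s (m / l) else 0) = lam * tm c ep p a s m := by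
  have hco : Nat.Coprime (p ^ s) l := by
    apply Nat.Coprime.pow_left
    exact (Nat.coprime_primes hp hl).2 (fun h => hlp h.symm)
  have hpos : 0 < p ^ s := pow_pos hp.pos s
  unfold tm
  by_cases hd : p ^ s ∣ m
  · have hd1 : p ^ s ∣ l * m := Dvd.dvd.mul_left hd l
    rw [if_pos hd1, if_pos hd, Nat.mul_div_assoc l hd]
    have h2 := h (m / p ^ s)
    by_cases hlm : l ∣ m
    · obtain ⟨q, rfl⟩ := hlm
      have hq : p ^ s ∣ q := hco.dvd_of_dvd_mul_left hd
      obtain ⟨r, rfl⟩ := hq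
      have e1 : l * (p ^ s * r) / p ^ s = l * r := by
        rw [show l * (p ^ s * r) = p ^ s * (l * r) by ring, Nat.mul_div_cancel_left _ hpos]
      have e2 : l * (p ^ s * r) / l = p ^ s * r := Nat.mul_div_cancel_left _ hl.pos
      have e3 : p ^ s * r / p ^ s = r := Nat.mul_div_cancel_left _ hpos
      have e4 : l * r / l = r := Nat.mul_div_cancel_left _ hl.pos
      rw [if_pos (Dvd.intro _ rfl), e2, if_pos (Dvd.intro _ rfl), e3, e1]
      rw [e1, if_pos (Dvd.intro _ rfl), e4] at h2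
      linear_combination ((ep : ℂ) ^ s * (p : ℂ) ^ ((a + 1) * s)) * h2
    · have hlm' : ¬ l ∣ m / p ^ s := fun h3 => hlm (h3.trans (Nat.div_dvd_of_dvd hd))
      rw [if_neg hlm, add_zero]
      rw [if_neg hlm', add_zero] at h2
      linear_combination ((ep : ℂ) ^ s * (p : ℂ) ^ ((a + 1) * s)) * h2
  · have hd1 : ¬ p ^ s ∣ l * m := fun h3 => hd (hco.dvd_of_dvd_mul_left h3)
    rw [if_neg hd1, if_neg hd, mul_zero, zero_add]
    by_cases hlm : l ∣ m
    · have hd2 : ¬ p ^ s ∣ m / l := fun h3 => hd (h3.trans (Nat.div_dvd_of_dvd hlm))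
      rw [if_pos hlm, if_neg hd2, mul_zero]
    · rw [if_neg hlm]

theorem hNXT : NXT := by
  intro hA1 p a N ep hN f g hp hb l hl hlp hf m
  have h0 : fcK f 0 = 0 := (hA1 N hN (2 * a + 2) f Complex.I (by simp)).1
  have hbt : ∀ M T : ℕ, M + 1 ≤ T →
      fcK g M = ∑ s ∈ Finset.range T, tm (fcK f) ep p a s M := by
    intro M T hT
    rw [sum_tm (fcK f) ep h0 p a M T hp hT, hb M]
    rfl
  have hm1 : m / l ≤ m := Nat.div_le_self m l
  rw [hbt (l * m) (l * m + m + 1) (by omega), hbt m (l * m + m + 1) (by omega),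
    hbt (m / l) (l * m + m + 1) (by omega)]
  have key : ∀ s ∈ Finset.range (l * m + m + 1),
      tm (fcK f) ep p a s (l * m) +
        (if l ∣ m then (l : ℂ) ^ ((2 * a + 2 : ℤ) - 1) * tm (fcK f) ep p a s (m / l) else 0) =
      fcK f l * tm (fcK f) ep p a s m := fun s _ =>
    tm_rel (fcK f) ep p a s m l (fcK f l) _ hp hl hlp hf
  have hk := Finset.sum_congr rfl key
  rw [Finset.sum_add_distrib, ← Finset.mul_sum] at hk
  rw [← hk]
  congr 1
  by_cases hlm : l ∣ m
  · simp only [if_pos hlm]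
    rw [Finset.mul_sum]
  · simp only [if_neg hlm, Finset.sum_const_zero]

end Pool.Agent.Helper58.TN
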